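import Mathlib
import Pool.Agent.Lib.MP_ae071c_lc.Q2

namespace Pool.Agent.Results.MP_ae071c_lc.IncomparablesAbove

open Pool.Agent.Lib.MP_ae071c_lc

/-- Above every Hyp equivalence relation there are two Hyp equivalence relations that are
incomparable under Hyp reducibility. -/
theorem result (E : (ℕ → ℕ) → (ℕ → ℕ) → Prop) (hE : HypEqv E) :
    ∃ F G : (ℕ → ℕ) → (ℕ → ℕ) → Prop, HypEqv F ∧ HypEqv G ∧ HypRed E F ∧ HypRed E G ∧
      ¬ HypRed F G ∧ ¬ HypRed G F :=
  incomparable_above E hE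

end Pool.Agent.Results.MP_ae071c_lc.IncomparablesAbove
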