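import Mathlib
import Pool.Agent.Lib.MP_ae071c_lc.Q1

namespace Pool.Agent.Results.MP_ae071c_lc.NoMinimalDegree

open Pool.Agent.Lib.MP_ae071c_lc

/-- There is no minimal degree of Hyp equivalence relations under Hyp reducibility: strictly
between the degree of the one-class relation and any degree above it lies another degree. -/
theorem result (E : (ℕ → ℕ) → (ℕ → ℕ) → Prop) (hE : HypEqv E)
    (h : HypRed (fun _ _ => True) E ∧ ¬ HypRed E (fun _ _ => True)) :
    ∃ F : (ℕ → ℕ) → (ℕ → ℕ) → Prop, HypEqv F ∧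
      (HypRed (fun _ _ => True) F ∧ ¬ HypRed F (fun _ _ => True)) ∧
      (HypRed F E ∧ ¬ HypRed E F) :=
  no_minimal E hE h.2

end Pool.Agent.Results.MP_ae071c_lc.NoMinimalDegree
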